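import Pool.Agent.Y686.CB.Gda
import Pool.Agent.W719.AR.Rt

/-!
# The limit of the divided differences with the explicit factor

The proof is that of `Pool.Agent.Y686.CB.gda`.
-/

set_option autoImplicit false

namespace Pool.Agent.Y448.PH

open Filter Finset EvenVol Pool.Agent.W709.VC Pool.Agent.H112R4.VL MeasureTheory
open Pool.Agent.W349.HT (EZ PZ PZ_cont EZ_diff EZ_symm QZ FZ rect_FZ rect_upp FZ_odd FZ_RI zz_one)
open Pool.Agent.Y686.CB
open scoped Real Topology

theorem Cf_kp (N : ℕ) : Cf N 0 = Pool.Agent.W719.AR.kp N := by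
  unfold Cf Pool.Agent.W719.AR.kp
  congr 2
  ring

theorem gda_ex (N : ℕ) (hN : 2 ≤ N) (a : ℤ) (i j : ℕ) (hij : i ≤ j) (hj : j < N) :
    ∃ G : ℂ → ℂ, DifferentiableAt ℂ G 0 ∧
    G 0 = Pool.Agent.W719.AR.kp N ^ a * Complex.I * Pool.Agent.Y472.cJ N a i j ∧
    ∀ᶠ ε in 𝓝[≠] (0 : ℂ), G ε =
      Pool.Agent.Y472.gd (Pool.Agent.W711.HT.vN N) (-Complex.exp ε) a i j := by
  have hNp : 0 < N := by omega
  have hNr : (0 : ℝ) < N := by exact_mod_cast hNp
  refine ⟨Gf N a i j, ?_, ?_, near hN a hij hj⟩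
  · -- removable singularity
    have hd : ∀ᶠ ε in 𝓝[≠] (0 : ℂ), DifferentiableAt ℂ (Gf N a i j) ε := by
      have h1 := eventually_eventually_nhdsWithin.2 (near hN a hij hj)
      filter_upwards [h1, small_ev hNp, self_mem_nhdsWithin] with ε h2 h3 h4
      have h4' : ε ≠ 0 := h4
      have h5 : 𝓝[≠] ε ≤ 𝓝 ε := nhdsWithin_le_nhds
      have h6 : Gf N a i j =ᶠ[𝓝 ε] fun ε => Pool.Agent.Y472.gd (Pool.Agent.W711.HT.vN N)
          (-Complex.exp ε) a i j := by
        have h7 : 𝓝[{0}ᶜ] ε = 𝓝 ε := isOpen_compl_singleton.nhdsWithin_eq h4'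
        rw [h7] at h2
        exact h2
      exact (gd_diff hNp a hj h4' h3).congr_of_eventuallyEq h6
    exact (Complex.analyticAt_of_differentiable_on_punctured_nhds_of_continuousAt hd
      (Gf_cont hNp a hj)).differentiableAt
  · have e1 : ∀ φ, QG (Icc i j) (zn N 0) φ = QZ N (Icc i j) (1, 1) φ := by
      intro φ
      unfold QG Pool.Agent.W349.HT.QZ
      refine Finset.prod_congr rfl fun k _ => ?_
      rw [zn_zero, zz_one]
    unfold Gf
    simp only [e1]
    have hpi0 : (π : ℂ) ≠ 0 := by exact_mod_cast Real.pi_ne_zero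
    have hI0 : Complex.I ≠ 0 := Complex.I_ne_zero
    have hh : (0 : ℝ) < 1 / N := by positivity
    rw [rect_FZ a hj hij hh, rect_upp hh (FZ_odd a N i j) (FZ_RI a hNp hh)]
    have e2 : Pool.Agent.Y472.cJ N a i j = (-1) ^ (N - 1 - j + i) / (2 * π) *
        Pool.Agent.W711.HT.upp (1 / N) (FZ a N i j) := rfl
    rw [e2, ← Cf_kp]
    field_simp
    rw [Complex.I_sq]
    ring

end Pool.Agent.Y448.PH
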