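import Pool.Agent.Y448.PH.AxpA
import Pool.Agent.Y448.PH.AxpB
import Pool.Agent.Y472.A.Final

/-!
# The exact formula for the trace of a braid on three strands (task AXP of project PH)
-/

set_option autoImplicit false

namespace Pool.Agent.Y448.PH

open Finset Filter Topology Pool.Agent.Y472 Pool.Agent.Y448.CB Pool.Agent.Y482.Ph
open Pool.Agent.W711.HT
open Pool.Agent.Y967.CB (MAe MBe Te He CC chi kap trI_low pI_high ph_eq ph_eq' ta_eq ta_eq' He_zero
  chi_zero Te_diff He_diff Te_zero kap_diff tendsto_real)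
open Pool.Agent.Y481 (wts)
open scoped Real

/-- the generic sum in terms of the continuation -/
theorem sumA_eq (N : ℕ) (hN : 2 ≤ N) (G : ℤ → ℕ → ℕ → ℂ → ℂ) (ls : List (ℤ × ℤ)) (m : ℤ) (ε : ℂ)
    (hG : ∀ x ∈ ls, ∀ i j : ℕ, i ≤ j → j < N → G x.1 i j ε = gd (vN N) (-Complex.exp ε) x.1 i j ∧
      G x.2 i j ε = gd (vN N) (-Complex.exp ε) x.2 i j) :
    ∑ D ∈ range (2 * N - 1), ta (vN N) (-Complex.exp ε) D ^ m *
        trI N (vN N) (-Complex.exp ε) ls D =
      kap N m ε * ∑ p ∈ range N, Ea (2 * m) N (chi N p ε) * (Te N G ls ε (chi N p ε) +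
        He N G ls p ε (chi N p ε) * (Complex.exp (-6 * m * N * ε) - 1)) := by
  have hMA : ∀ x ∈ ls, MA N (vN N) (-Complex.exp ε) x.1 = MAe N G ε x.1 := by
    intro x hx
    funext i j
    show (if j ≤ i then gd (vN N) (-Complex.exp ε) x.1 j i else 0) = if j ≤ i then _ else 0
    by_cases h : j ≤ i
    · rw [if_pos h, if_pos h, (hG x hx j i h i.2).1]
    · rw [if_neg h, if_neg h]
  have hMB : ∀ D p : ℕ, D + 1 + p = N → ∀ x ∈ ls,
      MB N (vN N) (-Complex.exp ε) D x.2 = MBe N G ε (chi N p ε) x.2 := by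
    intro D p hD x hx
    funext i j
    show (if i ≤ j then _ else 0) = if i ≤ j then _ else 0
    by_cases h : i ≤ j
    · rw [if_pos h, if_pos h, (hG x hx i j h j.2).2]
      congr 1
      exact Finset.prod_congr rfl fun t _ => ph_eq N D p t hN hD ε
    · rw [if_neg h, if_neg h]
  have hMB' : ∀ D p : ℕ, D + 1 + p = N → ∀ x ∈ ls,
      MB N (vN N) (-Complex.exp ε) (N + D) x.2 = MBe N G ε (chi N p ε) x.2 := by
    intro D p hD x hx
    funext i j
    show (if i ≤ j then _ else 0) = if i ≤ j then _ else 0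
    by_cases h : i ≤ j
    · rw [if_pos h, if_pos h, (hG x hx i j h j.2).2]
      congr 1
      exact Finset.prod_congr rfl fun t _ => ph_eq' N D p t hN hD ε
    · rw [if_neg h, if_neg h]
  have hlow : ∀ D p : ℕ, D + 1 + p = N → trI N (vN N) (-Complex.exp ε) ls D =
      Te N G ls ε (chi N p ε) - He N G ls p ε (chi N p ε) := by
    intro D p hD
    have k1 : (ls.map fun x => MA N (vN N) (-Complex.exp ε) x.1 *
        MB N (vN N) (-Complex.exp ε) D x.2) =
        ls.map fun x => MAe N G ε x.1 * MBe N G ε (chi N p ε) x.2 :=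
      List.map_congr_left fun x hx => by rw [hMA x hx, hMB D p hD x hx]
    have k2 : (ls.map fun x => MA N (vN N) (-Complex.exp ε) x.1 * pH N p *
        MB N (vN N) (-Complex.exp ε) D x.2 * pH N p) =
        ls.map fun x => MAe N G ε x.1 * pH N p * MBe N G ε (chi N p ε) x.2 * pH N p :=
      List.map_congr_left fun x hx => by rw [hMA x hx, hMB D p hD x hx]
    rw [trI_low N D p hD, Te, He, k1, k2]
  have hhigh : ∀ D p : ℕ, D + 1 + p = N → trI N (vN N) (-Complex.exp ε) ls (N + D) =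
      He N G ls p ε (chi N p ε) := by
    intro D p hD
    have k2 : (ls.map fun x => MA N (vN N) (-Complex.exp ε) x.1 * pH N p *
        MB N (vN N) (-Complex.exp ε) (N + D) x.2 * pH N p) =
        ls.map fun x => MAe N G ε x.1 * pH N p * MBe N G ε (chi N p ε) x.2 * pH N p :=
      List.map_congr_left fun x hx => by rw [hMA x hx, hMB' D p hD x hx]
    rw [trI, He, pI_high N D p hD, k2]
  have e1 : 2 * N - 1 = N + (N - 1) := by omega
  rw [e1, Finset.sum_range_add]
  have hlow' : ∑ D ∈ range N, ta (vN N) (-Complex.exp ε) D ^ m *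
        trI N (vN N) (-Complex.exp ε) ls D =
      ∑ p ∈ range N, (kap N m ε * Ea (2 * m) N (chi N p ε)) *
          (Te N G ls ε (chi N p ε) - He N G ls p ε (chi N p ε)) := by
    rw [← Finset.sum_range_reflect]
    refine Finset.sum_congr rfl fun p hp => ?_
    have hp' := Finset.mem_range.mp hp
    have hD : (N - 1 - p) + 1 + p = N := by omega
    rw [ta_eq N _ p hN hD, hlow _ p hD]
  have hhigh' : ∑ D ∈ range (N - 1), ta (vN N) (-Complex.exp ε) (N + D) ^ m *
        trI N (vN N) (-Complex.exp ε) ls (N + D) =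
      ∑ p ∈ range N, (kap N m ε * Ea (2 * m) N (chi N p ε) * Complex.exp (-6 * m * N * ε)) *
          He N G ls p ε (chi N p ε) := by
    have e2 : ∑ p ∈ range N,
        (kap N m ε * Ea (2 * m) N (chi N p ε) * Complex.exp (-6 * m * N * ε)) *
          He N G ls p ε (chi N p ε) =
        ∑ p ∈ range (N - 1),
        (kap N m ε * Ea (2 * m) N (chi N (p + 1) ε) * Complex.exp (-6 * m * N * ε)) *
          He N G ls (p + 1) ε (chi N (p + 1) ε) := by
      have : N = (N - 1) + 1 := by omega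
      conv_lhs => rw [this, Finset.sum_range_succ']
      rw [← this, He_zero]
      simp
    rw [e2, ← Finset.sum_range_reflect]
    refine Finset.sum_congr rfl fun p hp => ?_
    have hp' := Finset.mem_range.mp hp
    have hD : (N - 1 - 1 - p) + 1 + (p + 1) = N := by omega
    rw [ta_eq' N _ (p + 1) hN hD, hhigh _ (p + 1) hD]
  rw [hlow', hhigh', ← Finset.sum_add_distrib, Finset.mul_sum]
  refine Finset.sum_congr rfl fun p _ => ?_
  ring

/-- the generic trace on three strands -/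
theorem generic (h : S_TR3) {N : ℕ} {w l : ℂ} (hw : Rt N w) (hl : Gl l) (ls : List (ℤ × ℤ))
    (m : ℤ) :
    ∑ x ∈ range N, ∑ y ∈ range N, ∑ z ∈ range N,
      opw w l (ftw m ++ bw ls) (dl3 x y z) x y z =
    N * ∑ D ∈ range (2 * N - 1), ta w l D ^ m * trI N w l ls D := by
  have hw0 := Pool.Agent.Y448.CB.rt_ne hw
  have hS1 := Pool.Agent.Y807.CB.sig1
  have hS2 := Pool.Agent.Y807.CB.sig2
  have hST := Pool.Agent.Y807.CB.sigt
  have hGD3 := Pool.Agent.Y317.CB.gd3
  have hHATM := Pool.Agent.Y317.CB.hatm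
  have hTH := Pool.Agent.Y317.CB.th
  have hNIL := Pool.Agent.Y574.CB.nil
  have hHV := Pool.Agent.Y228.CB.hvt
  have hBAS := Pool.Agent.Y494.CB.bas
  have gX : Gd3 N w l (fullt w l m * tw w l ls) :=
    gd3_mul (gd3_fullt hS1 hS2 hST hGD3 hw hw0 hl.ne m) (gd3_tw hS1 hS2 hST hGD3 hw hw0 hl.ne ls)
  have hact := Pool.Agent.Y516.CB.act Pool.Agent.Y678.CB.bid Pool.Agent.Y833.CB.spl
    Pool.Agent.Y317.CB.x12 hHATM hGD3 hBAS hHV hS1 hS2 hST hTH hNIL N w l hw hl
  have ht := trace_split (hat w l (fullt w l m * tw w l ls)) (fun _ => 1)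
      (fun D => ta w l D ^ m)
      (fun D => PM N w l D ls) (Pool.Agent.Y833.CB.basf N w l hw hl)
      (fun D i hi => act_all hS1 hS2 hST hGD3 hHATM hTH hNIL hw hw0 hl
        (fun a D i h1 h2 => (hact a D i h1 h2).1) (fun a D i h1 h2 => (hact a D i h1 h2).2)
        (Pool.Agent.Y516.CB.ft Pool.Agent.Y833.CB.tas Pool.Agent.Y833.CB.dec hBAS hHATM hGD3 hHV
          hS1 hS2 hST hTH hNIL Pool.Agent.Y678.CB.vwp N w l hw hl) D ls m i hi)
  rw [opw_all, h N w l hw hl _ gX
    (fun m' D => hat_hom w l (hm3_mul (hm3_fullt w l m) (hm3_tw w l ls)) m' D)]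
  congr 1
  simp only [one_mul] at ht
  rw [ht]
  rfl

theorem prod_phase (k : ℂ) (hk : k ≠ 0) (ls : List (ℤ × ℤ)) :
    CC (fun a => k ^ a * Complex.I) ls = (-1) ^ ls.length * k ^ (wts ls).sum := by
  induction ls with
  | nil => simp [CC, wts]
  | cons x ls ih =>
    have e1 : CC (fun a => k ^ a * Complex.I) (x :: ls) =
        (k ^ x.1 * Complex.I * (k ^ x.2 * Complex.I)) * CC (fun a => k ^ a * Complex.I) ls := by
      unfold CC
      rw [List.map_cons, List.prod_cons]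
    have e2 : (wts (x :: ls)).sum = x.1 + (x.2 + (wts ls).sum) := by
      unfold wts
      rw [List.map_cons, List.flatten_cons, List.sum_append]
      simp [add_assoc]
    rw [e1, ih, e2, zpow_add₀ hk, zpow_add₀ hk, List.length_cons, pow_succ]
    have hI : Complex.I ^ 2 = -1 := Complex.I_sq
    linear_combination (k ^ x.1 * k ^ x.2 * (-1) ^ ls.length * k ^ (wts ls).sum) * hI

theorem cont_pair (F : ℂ × ℂ → ℂ) (f : ℂ → ℂ) (hf : ContinuousAt f 0)
    (hF : ContinuousAt F (0, f 0)) : ContinuousAt (fun ε => F (ε, f ε)) 0 := by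
  have h1 : ContinuousAt (fun ε : ℂ => (ε, f ε)) 0 := continuousAt_id.prodMk hf
  exact ContinuousAt.comp (g := F) (f := fun ε : ℂ => (ε, f ε)) hF h1

/-- continuity of the right side -/
theorem right_cont {N : ℕ} {G : ℤ → ℕ → ℕ → ℂ → ℂ}
    (hGd : ∀ a i j, i ≤ j → j < N → DifferentiableAt ℂ (G a i j) 0) (ls : List (ℤ × ℤ)) (m : ℤ) :
    ContinuousAt (fun ε => (N : ℂ) * (kap N m ε * ∑ p ∈ range N, Ea (2 * m) N (chi N p ε) *
    (Te N G ls ε (chi N p ε) +
        He N G ls p ε (chi N p ε) * (Complex.exp (-6 * m * N * ε) - 1)))) 0 := by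
  have hchi : ∀ p : ℕ, ContinuousAt (chi N p) 0 := fun p =>
    (Pool.Agent.Y967.CB.chi_deriv N p).continuousAt
  refine continuousAt_const.mul ((kap_diff N m).continuousAt.mul ?_)
  refine tendsto_finsetSum _ fun p _ => ?_
  have hT : ContinuousAt (fun ε : ℂ => Te N G ls ε (chi N p ε)) 0 :=
    cont_pair (fun x : ℂ × ℂ => Te N G ls x.1 x.2) (chi N p) (hchi p)
      (Te_diff hGd ls (chi N p 0)).continuousAt
  have hH : ContinuousAt (fun ε : ℂ => He N G ls p ε (chi N p ε)) 0 :=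
    cont_pair (fun x : ℂ × ℂ => He N G ls p x.1 x.2) (chi N p) (hchi p)
      (He_diff hGd ls p (chi N p 0)).continuousAt
  have hE : ContinuousAt (fun ε : ℂ => Ea (2 * m) N (chi N p ε)) 0 := by
    have h1 : Continuous (Ea (2 * m) N) := by
      unfold Ea
      fun_prop
    exact ContinuousAt.comp (g := Ea (2 * m) N) (f := chi N p) h1.continuousAt (hchi p)
  have hx : ContinuousAt (fun ε : ℂ => Complex.exp (-6 * m * N * ε) - 1) 0 := by fun_prop
  exact hE.mul (hT.add (hH.mul hx))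

theorem axp (h : S_TR3) : S_AXP := by
  intro N ls m hN _
  set c : ℤ → ℂ := fun a => Pool.Agent.W719.AR.kp N ^ a * Complex.I with hc
  have hG' : ∀ (a : ℤ) (i j : ℕ), ∃ G : ℂ → ℂ, i ≤ j → j < N → (DifferentiableAt ℂ G 0 ∧
      G 0 = c a * cJ N a i j ∧
      ∀ᶠ ε in 𝓝[≠] (0 : ℂ), G ε = gd (vN N) (-Complex.exp ε) a i j) := by
    intro a i j
    by_cases h : i ≤ j ∧ j < N
    · obtain ⟨G, h1, h2, h3⟩ := gda_ex N hN a i j h.1 h.2
      exact ⟨G, fun _ _ => ⟨h1, h2, h3⟩⟩
    · exact ⟨0, fun h1 h2 => absurd ⟨h1, h2⟩ h⟩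
  choose G hGs using hG'
  have hGd : ∀ a i j, i ≤ j → j < N → DifferentiableAt ℂ (G a i j) 0 :=
    fun a i j h1 h2 => (hGs a i j h1 h2).1
  have hG0 : ∀ a i j, i ≤ j → j < N → G a i j 0 = c a * cJ N a i j :=
    fun a i j h1 h2 => (hGs a i j h1 h2).2.1
  have hRt : Rt N (vN N) := Pool.Agent.Y195.CB.rtv N hN
  have hv : vN N ≠ 0 := Pool.Agent.Y967.CB.vN_ne N
  have hexp : Tendsto (fun ε : ℂ => -Complex.exp ε) (𝓝 0) (𝓝 (-1)) := by
    have h2 : Tendsto (fun ε : ℂ => -Complex.exp ε) (𝓝 0) (𝓝 (-Complex.exp 0)) :=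
      (Complex.continuous_exp.tendsto 0).neg
    rwa [Complex.exp_zero] at h2
  -- the left side
  have hL : Tendsto (fun ε : ℝ => TL N (ftw m ++ bw ls) (-Complex.exp (ε : ℂ))) (𝓝[≠] 0)
      (𝓝 (Pool.Agent.W715.VC.rep3 N (ftw m ++ bw ls)).trace) := by
    rw [← TL_lim hRt]
    exact (((TL_cont hv _).tendsto.comp hexp).mono_left nhdsWithin_le_nhds).comp tendsto_real
  -- the sum is equal to its continuation
  have hev : ∀ᶠ ε in 𝓝[≠] (0 : ℂ), ∀ x ∈ ls, ∀ i j : ℕ, i ≤ j → j < N →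
      G x.1 i j ε = gd (vN N) (-Complex.exp ε) x.1 i j ∧
      G x.2 i j ε = gd (vN N) (-Complex.exp ε) x.2 i j := by
    have h1 : ∀ᶠ ε in 𝓝[≠] (0 : ℂ), ∀ x ∈ ls.toFinset, ∀ j ∈ range N, ∀ i ∈ range (j + 1),
        G x.1 i j ε = gd (vN N) (-Complex.exp ε) x.1 i j ∧
        G x.2 i j ε = gd (vN N) (-Complex.exp ε) x.2 i j := by
      rw [Filter.eventually_all_finset]
      intro x _
      rw [Filter.eventually_all_finset]
      intro j hj
      rw [Filter.eventually_all_finset]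
      intro i hi
      have hj' := Finset.mem_range.mp hj
      have hi' : i ≤ j := by
        have := Finset.mem_range.mp hi
        omega
      exact ((hGs x.1 i j hi' hj').2.2).and ((hGs x.2 i j hi' hj').2.2)
    filter_upwards [h1] with ε hε x hx i j hij hj
    exact hε x (List.mem_toFinset.mpr hx) j (Finset.mem_range.mpr hj) i
      (Finset.mem_range.mpr (by omega))
  set R : ℂ → ℂ := fun ε => (N : ℂ) * (kap N m ε * ∑ p ∈ range N, Ea (2 * m) N (chi N p ε) *
    (Te N G ls ε (chi N p ε) +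
        He N G ls p ε (chi N p ε) * (Complex.exp (-6 * m * N * ε) - 1))) with hR
  have hK : (fun ε : ℝ => TL N (ftw m ++ bw ls) (-Complex.exp (ε : ℂ))) =ᶠ[𝓝[≠] 0]
      fun ε : ℝ => R (ε : ℂ) := by
    filter_upwards [tendsto_real.eventually hev, self_mem_nhdsWithin] with ε hε h0
    have hε0 : ε ≠ 0 := h0
    have hn : ‖-Complex.exp (ε : ℂ)‖ = Real.exp ε := by
      rw [norm_neg, Complex.norm_exp, Complex.ofReal_re]
    have hn1 : ‖-Complex.exp (ε : ℂ)‖ ≠ 1 := by
      rw [hn]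
      intro h
      exact hε0 ((Real.exp_eq_one_iff ε).mp h)
    have hl0 : -Complex.exp (ε : ℂ) ≠ 0 := neg_ne_zero.mpr (Complex.exp_ne_zero _)
    rw [TL_eq Pool.Agent.Y807.CB.sigt hRt hl0 _ (letters_lt m ls), generic h hRt ⟨hl0, hn1⟩ ls m,
      sumA_eq N hN G ls m (ε : ℂ) hε]
  have hRc : ContinuousAt R 0 := right_cont hGd ls m
  have hR' : Tendsto (fun ε : ℝ => R (ε : ℂ)) (𝓝[≠] 0) (𝓝 (R 0)) :=
    (hRc.tendsto.mono_left nhdsWithin_le_nhds).comp tendsto_real
  have hlim := tendsto_nhds_unique (hL.congr' hK) hR'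
  rw [hlim]
  show (N : ℂ) * (kap N m 0 * ∑ p ∈ range N, Ea (2 * m) N (chi N p 0) *
    (Te N G ls 0 (chi N p 0) +
        He N G ls p 0 (chi N p 0) * (Complex.exp (-6 * m * N * 0) - 1))) = _
  have hsum : ∑ p ∈ range N, Ea (2 * m) N (chi N p 0) * (Te N G ls 0 (chi N p 0) +
        He N G ls p 0 (chi N p 0) * (Complex.exp (-6 * m * N * 0) - 1)) =
      CC c ls * SA N ls m := by
    unfold SA
    rw [Finset.mul_sum]
    refine Finset.sum_congr rfl fun p _ => ?_
    rw [chi_zero, mul_zero, Complex.exp_zero, sub_self, mul_zero, add_zero,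
      Te_zero hN c hG0]
    ring
  have hkap : kap N m 0 = vN N ^ (4 * m) := by
    unfold kap
    rw [zpow_mul]
    congr 1
    have : (-6 * (N : ℂ) * 0 + 9 * Complex.I * N * 0 ^ 2 / (2 * π)) = 0 := by ring
    rw [this, Complex.exp_zero, mul_one]
    norm_cast
  have hkp : Pool.Agent.W719.AR.kp N ≠ 0 := by
    rw [← Cf_kp]
    exact Pool.Agent.Y686.CB.Cf_ne N 0
  rw [hsum, hkap, hc, prod_phase _ hkp, pz]
  ring

end Pool.Agent.Y448.PH
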