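import Pool.Agent.Y482.Ph.Defs
import Pool.Agent.Y448.CB.Trg
import Pool.Agent.Y195.CB.JLC

/-!
# The trace of a braid on three strands: the left side of the exact formula
-/

set_option autoImplicit false

namespace Pool.Agent.Y448.PH

open Finset Filter Topology Pool.Agent.Y472 Pool.Agent.Y448.CB Pool.Agent.Y482.Ph
open Pool.Agent.H550R3.Jones (on12 on23 crossP crossN)
open Pool.Agent.W715.VC (M3 I3)
open Pool.Agent.W711.HT (vN)

/-- the matrix of an operator on three strands -/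
noncomputable def mx3 (N : ℕ) (X : V3 →ₗ[ℂ] V3) : M3 N :=
  fun p q => X (dl3 q.1 q.2.1 q.2.2) p.1 p.2.1 p.2.2

variable {N : ℕ}

theorem dl3_T3 (q : I3 N) : dl3 q.1 q.2.1 q.2.2 ∈ T3 N := by
  intro a b c h
  unfold dl3
  rw [if_neg]
  rintro ⟨h1, h2, h3⟩
  have i1 := q.1.2
  have i2 := q.2.1.2
  have i3 := q.2.2.2
  omega

/-- expansion in the standard basis -/
theorem expand3 {x : V3} (hx : x ∈ T3 N) :
    x = ∑ p : I3 N, x p.1 p.2.1 p.2.2 • dl3 p.1 p.2.1 p.2.2 := by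
  funext a b c
  have e : (∑ p : I3 N, x p.1 p.2.1 p.2.2 • dl3 p.1 p.2.1 p.2.2) a b c =
      ∑ p : I3 N, x p.1 p.2.1 p.2.2 *
        (if a = p.1 ∧ b = p.2.1 ∧ c = p.2.2 then 1 else 0) := by
    rw [Finset.sum_apply, Finset.sum_apply, Finset.sum_apply]
    rfl
  rw [e]
  by_cases h : a < N ∧ b < N ∧ c < N
  · rw [sum_eq_single (⟨a, h.1⟩, (⟨b, h.2.1⟩, ⟨c, h.2.2⟩))]
    · simp
    · intro p _ hp
      rw [if_neg, mul_zero]
      intro hab
      apply hp
      refine Prod.ext (Fin.ext hab.1.symm) (Prod.ext (Fin.ext hab.2.1.symm) (Fin.ext hab.2.2.symm))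
    · simp
  · rw [hx a b c (by omega)]
    symm
    refine sum_eq_zero fun p _ => ?_
    rw [if_neg, mul_zero]
    rintro ⟨h1, h2, h3⟩
    apply h
    rw [h1, h2, h3]
    exact ⟨p.1.2, p.2.1.2, p.2.2.2⟩

theorem mx3_mul {X Y : V3 →ₗ[ℂ] V3} (hY : ∀ x ∈ T3 N, Y x ∈ T3 N) :
    mx3 N (X * Y) = mx3 N X * mx3 N Y := by
  ext p q
  rw [Matrix.mul_apply]
  have h := expand3 (hY _ (dl3_T3 q))
  have e1 : mx3 N (X * Y) p q = X (Y (dl3 q.1 q.2.1 q.2.2)) p.1 p.2.1 p.2.2 := rfl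
  rw [e1]
  conv_lhs => rw [h, map_sum, Finset.sum_apply, Finset.sum_apply, Finset.sum_apply]
  refine sum_congr rfl fun r _ => ?_
  rw [map_smul]
  show Y (dl3 q.1 q.2.1 q.2.2) r.1 r.2.1 r.2.2 * X (dl3 r.1 r.2.1 r.2.2) p.1 p.2.1 p.2.2 =
    X (dl3 r.1 r.2.1 r.2.2) p.1 p.2.1 p.2.2 * Y (dl3 q.1 q.2.1 q.2.2) r.1 r.2.1 r.2.2
  ring

theorem mx3_one : mx3 N 1 = 1 := by
  ext p q
  rw [Matrix.one_apply]
  show (if (p.1 : ℕ) = q.1 ∧ (p.2.1 : ℕ) = q.2.1 ∧ (p.2.2 : ℕ) = q.2.2 then (1 : ℂ) else 0) = _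
  by_cases h : p = q
  · rw [if_pos h, if_pos]
    rw [h]
    exact ⟨rfl, rfl, rfl⟩
  · rw [if_neg h, if_neg]
    rintro ⟨h1, h2, h3⟩
    exact h (Prod.ext (Fin.ext h1) (Prod.ext (Fin.ext h2) (Fin.ext h3)))

theorem zero_app (A : V2 →ₗ[ℂ] V2) (x : V2) (hx : ∀ a b, x a b = 0) (a b : ℕ) : A x a b = 0 := by
  have : x = 0 := by funext a b; exact hx a b
  rw [this, map_zero]
  rfl

theorem mx3_L12 (A : V2 →ₗ[ℂ] V2) : mx3 N (L12 A) = on12 (mx N A) := by
  ext p q
  show A (fun a b => dl3 q.1 q.2.1 q.2.2 a b p.2.2) p.1 p.2.1 =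
    if p.2.2 = q.2.2 then A (dl q.1 q.2.1) p.1 p.2.1 else 0
  by_cases h : p.2.2 = q.2.2
  · have e : (fun a b => dl3 q.1 q.2.1 q.2.2 a b p.2.2) = dl q.1 q.2.1 := by
      rw [h]
      funext a b
      unfold dl3 dl
      simp
    rw [if_pos h, e]
  · rw [if_neg h]
    refine zero_app A _ (fun a b => ?_) _ _
    unfold dl3
    rw [if_neg]
    rintro ⟨_, _, h3⟩
    exact h (Fin.ext h3)

theorem mx3_L23 (A : V2 →ₗ[ℂ] V2) : mx3 N (L23 A) = on23 (mx N A) := by
  ext p q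
  show A (dl3 q.1 q.2.1 q.2.2 p.1) p.2.1 p.2.2 =
    if p.1 = q.1 then A (dl q.2.1 q.2.2) p.2.1 p.2.2 else 0
  by_cases h : p.1 = q.1
  · have e : dl3 q.1 q.2.1 q.2.2 p.1 = dl q.2.1 q.2.2 := by
      rw [h]
      funext a b
      unfold dl3 dl
      simp
    rw [if_pos h, e]
  · rw [if_neg h]
    refine zero_app A _ (fun a b => ?_) _ _
    unfold dl3
    rw [if_neg]
    rintro ⟨h1, _, _⟩
    exact h (Fin.ext h1)

/-- the matrix of a letter -/
noncomputable def gl (N : ℕ) (w l : ℂ) (g : ℕ × Bool) : M3 N :=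
  if g.1 = 0 then on12 (if g.2 then mx N (sg w l) else mx N (sn w l))
  else if g.1 = 1 then on23 (if g.2 then mx N (sg w l) else mx N (sn w l)) else 1

theorem t3_L12 {A : V2 →ₗ[ℂ] V2} (hA : ∀ x ∈ T2 N, A x ∈ T2 N) :
    ∀ x ∈ T3 N, L12 A x ∈ T3 N := by
  intro x hx a b c h
  show A (fun a b => x a b c) a b = 0
  by_cases hc : N ≤ c
  · exact zero_app A _ (fun a b => hx a b c (Or.inr (Or.inr hc))) a b
  · refine hA _ ?_ a b (by omega)
    intro a' b' h'
    exact hx a' b' c (by omega)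

theorem t3_L23 {A : V2 →ₗ[ℂ] V2} (hA : ∀ x ∈ T2 N, A x ∈ T2 N) :
    ∀ x ∈ T3 N, L23 A x ∈ T3 N := by
  intro x hx a b c h
  show A (x a) b c = 0
  by_cases ha : N ≤ a
  · exact zero_app A _ (fun b' c' => hx a b' c' (Or.inl ha)) b c
  · refine hA _ ?_ b c (by omega)
    intro b' c' h'
    exact hx a b' c' (by omega)

variable {w l : ℂ}

/-- the operator of a letter -/
noncomputable def ol (w l : ℂ) (g : ℕ × Bool) : V3 →ₗ[ℂ] V3 :=
  if g.1 = 0 then L12 (if g.2 then sg w l else sn w l)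
    else L23 (if g.2 then sg w l else sn w l)

theorem ol_T3 (h3 : S_SIGT) (hw : Rt N w) (hl : l ≠ 0) (g : ℕ × Bool) :
    ∀ x ∈ T3 N, ol w l g x ∈ T3 N := by
  have hh := h3 N w l hw hl
  have hA : ∀ x ∈ T2 N, (if g.2 then sg w l else sn w l) x ∈ T2 N := by
    intro x hx
    split_ifs
    · exact hh.1 x hx
    · exact hh.2.1 x hx
  unfold ol
  split_ifs with h0 h1
  · exact t3_L12 hh.1
  · exact t3_L12 hh.2.1
  · exact t3_L23 hh.1
  · exact t3_L23 hh.2.1

theorem mx3_ol (g : ℕ × Bool) (hg : g.1 < 2) : mx3 N (ol w l g) = gl N w l g := by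
  unfold ol gl
  by_cases h0 : g.1 = 0
  · rw [if_pos h0, if_pos h0, mx3_L12]
    split_ifs <;> rfl
  · have h1 : g.1 = 1 := by omega
    rw [if_neg h0, if_neg h0, if_pos h1, mx3_L23]
    split_ifs <;> rfl

theorem opw_eq (b : List (ℕ × Bool)) : opw w l b = (b.map (ol w l)).prod := rfl

theorem opw_T3 (h3 : S_SIGT) (hw : Rt N w) (hl : l ≠ 0) (b : List (ℕ × Bool)) :
    ∀ x ∈ T3 N, opw w l b x ∈ T3 N := by
  induction b with
  | nil => intro x hx; exact hx
  | cons g b ih =>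
    intro x hx
    rw [opw_eq, List.map_cons, List.prod_cons]
    exact ol_T3 h3 hw hl g _ (ih x hx)

theorem mx3_opw (h3 : S_SIGT) (hw : Rt N w) (hl : l ≠ 0) (b : List (ℕ × Bool))
    (hb : ∀ g ∈ b, g.1 < 2) : mx3 N (opw w l b) = (b.map (gl N w l)).prod := by
  induction b with
  | nil => exact mx3_one
  | cons g b ih =>
    rw [opw_eq, List.map_cons, List.prod_cons, ← opw_eq, mx3_mul (opw_T3 h3 hw hl b),
      ih fun g' hg' => hb g' (List.mem_cons_of_mem _ hg'), mx3_ol g (hb g List.mem_cons_self),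
      List.map_cons, List.prod_cons]

theorem trace_mx3 (X : V3 →ₗ[ℂ] V3) : (mx3 N X).trace =
    ∑ a ∈ range N, ∑ b ∈ range N, ∑ c ∈ range N, X (dl3 a b c) a b c := by
  unfold Matrix.trace
  rw [Fintype.sum_prod_type,
    ← Fin.sum_univ_eq_sum_range (fun a => ∑ b ∈ range N, ∑ c ∈ range N, X (dl3 a b c) a b c) N]
  refine sum_congr rfl fun a _ => ?_
  rw [Fintype.sum_prod_type,
    ← Fin.sum_univ_eq_sum_range (fun b => ∑ c ∈ range N, X (dl3 a b c) a b c) N]
  refine sum_congr rfl fun b _ => ?_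
  rw [← Fin.sum_univ_eq_sum_range (fun c => X (dl3 a b c) a b c) N]
  rfl

/-! ### The limit -/

theorem gl_lim (hw : Rt N (vN N)) (g : ℕ × Bool) : gl N (vN N) (-1) g =
    Pool.Agent.W715.VC.g3 N g := by
  unfold gl Pool.Agent.W715.VC.g3
  rw [Pool.Agent.Y195.CB.mx_sg N _ hw, Pool.Agent.Y195.CB.mx_sn N _ hw]
  rfl

theorem gl_cont (hw : vN N ≠ 0) (g : ℕ × Bool) (p q : I3 N) :
    ContinuousAt (fun l => gl N (vN N) l g p q) (-1) := by
  have hne : (-1 : ℂ) ≠ 0 := by norm_num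
  have hA : ∀ x y : Fin N × Fin N, ContinuousAt
      (fun l => (if g.2 then mx N (sg (vN N) l) else mx N (sn (vN N) l)) x y) (-1) := by
    intro x y
    split_ifs
    · exact Pool.Agent.Y195.CB.cont_sg N _ hw _ hne x y
    · exact Pool.Agent.Y195.CB.cont_sn N _ hw _ hne x y
  by_cases h0 : g.1 = 0
  · have e : (fun l => gl N (vN N) l g p q) = fun l => if p.2.2 = q.2.2 then
        (if g.2 then mx N (sg (vN N) l) else mx N (sn (vN N) l)) (p.1, p.2.1) (q.1, q.2.1)
        else 0 := by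
      funext l
      unfold gl
      rw [if_pos h0]
      rfl
    rw [e]
    by_cases h1 : p.2.2 = q.2.2
    · simp only [if_pos h1]
      exact hA _ _
    · simp only [if_neg h1]
      exact continuousAt_const
  · by_cases h1 : g.1 = 1
    · have e : (fun l => gl N (vN N) l g p q) = fun l => if p.1 = q.1 then
          (if g.2 then mx N (sg (vN N) l) else mx N (sn (vN N) l)) p.2 q.2
          else 0 := by
        funext l
        unfold gl
        rw [if_neg h0, if_pos h1]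
        rfl
      rw [e]
      by_cases h2 : p.1 = q.1
      · simp only [if_pos h2]
        exact hA _ _
      · simp only [if_neg h2]
        exact continuousAt_const
    · have e : (fun l => gl N (vN N) l g p q) = fun _ => (1 : M3 N) p q := by
        funext l
        unfold gl
        rw [if_neg h0, if_neg h1]
      rw [e]
      exact continuousAt_const

theorem prod_cont (hw : vN N ≠ 0) (b : List (ℕ × Bool)) (p q : I3 N) :
    ContinuousAt (fun l => (b.map (gl N (vN N) l)).prod p q) (-1) := by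
  induction b generalizing p q with
  | nil => exact continuousAt_const
  | cons g b ih =>
    have e : (fun l => ((g :: b).map (gl N (vN N) l)).prod p q) = fun l =>
        ∑ r, gl N (vN N) l g p r * (b.map (gl N (vN N) l)).prod r q := by
      funext l
      rw [List.map_cons, List.prod_cons, Matrix.mul_apply]
    rw [e]
    exact tendsto_finsetSum _ fun r _ => (gl_cont hw g p r).mul (ih r q)

/-- the trace of the operator of the word, as a function of the deformation parameter -/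
noncomputable def TL (N : ℕ) (b : List (ℕ × Bool)) (l : ℂ) : ℂ :=
  ((b.map (gl N (vN N) l)).prod).trace

theorem TL_cont (hw : vN N ≠ 0) (b : List (ℕ × Bool)) : ContinuousAt (TL N b) (-1) := by
  unfold TL Matrix.trace
  exact tendsto_finsetSum _ fun r _ => prod_cont hw b r r

theorem TL_lim (hw : Rt N (vN N)) (b : List (ℕ × Bool)) :
    TL N b (-1) = (Pool.Agent.W715.VC.rep3 N b).trace := by
  unfold TL Pool.Agent.W715.VC.rep3
  have e : gl N (vN N) (-1) = Pool.Agent.W715.VC.g3 N := by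
    funext g
    exact gl_lim hw g
  rw [e]

theorem TL_eq (h3 : S_SIGT) (hw : Rt N (vN N)) (hl : l ≠ 0) (b : List (ℕ × Bool))
    (hb : ∀ g ∈ b, g.1 < 2) : TL N b l =
    ∑ x ∈ range N, ∑ y ∈ range N, ∑ z ∈ range N, opw (vN N) l b (dl3 x y z) x y z := by
  rw [← trace_mx3, mx3_opw h3 hw hl b hb]
  rfl

end Pool.Agent.Y448.PH
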